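import Pool.Agent.Helper24.AL.St
import Pool.Agent.Helper56.SW.M_AP

/-!
# MP_e188f1_nt, project AL, module B
-/

set_option autoImplicit false

namespace Pool.Agent.Helper82.AL

open Finset Matrix
open Pool.Agent.Helper24.AL
open Pool.Agent.Helper56.SW (τ I mem_I stMul)

theorem dvd_mul_gcd {c : ℕ} {x y : ℤ} (h : (c : ℤ) ∣ x * y) :
    (c : ℤ) ∣ x * ((Int.gcd y c : ℕ) : ℤ) := by
  rw [Int.gcd_eq_gcd_ab y c]
  have h1 : x * (y * Int.gcdA y c + (c : ℤ) * Int.gcdB y c) =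
      (x * y) * Int.gcdA y c + (c : ℤ) * (x * Int.gcdB y c) := by ring
  rw [h1]
  exact dvd_add (h.mul_right _) (dvd_mul_right _ _)

theorem dvd_gcd_mul {c : ℕ} {x y : ℤ} (h : (c : ℤ) ∣ x * y) :
    (c : ℤ) ∣ ((Int.gcd x c : ℕ) : ℤ) * y := by
  have h1 : (c : ℤ) ∣ y * x := by rwa [mul_comm]
  have := dvd_mul_gcd h1
  rwa [mul_comm]

theorem sg_rot (t : Fin 3 → ℤ) (i : Fin 3) : sg t = t i + t (i + 1) + t (i + 2) := by
  unfold sg
  fin_cases i
  · rfl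
  · show t 0 + t 1 + t 2 = t 1 + t 2 + t 0
    ring
  · show t 0 + t 1 + t 2 = t 2 + t 0 + t 1
    ring

theorem ne01 (i : Fin 3) : i ≠ i + 1 := by
  fin_cases i <;> decide

theorem ne12 (i : Fin 3) : i + 1 ≠ i + 2 := by
  fin_cases i <;> decide

theorem ne02 (i : Fin 3) : i ≠ i + 2 := by
  fin_cases i <;> decide

theorem fin3_cases (i j : Fin 3) : j = i ∨ j = i + 1 ∨ j = i + 2 := by
  revert i j; decide

theorem add11 (i : Fin 3) : i + 1 + 1 = i + 2 := by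
  revert i; decide

/-- `c` is at most the product of two of the gcds -/
theorem le_mul_gcd {c : ℕ} {t b : Fin 3 → ℤ} (hc : 1 ≤ c) {i j k : Fin 3}
    (h : (c : ℤ) ∣ t i * t j * b k) :
    c ≤ Int.gcd (t i * b j) c * Int.gcd (t j * b k) c := by
  have h1 : (c : ℤ) ∣ t i * (t j * b k) := by rwa [← mul_assoc]
  have h2 := dvd_mul_gcd h1
  have h3 : (c : ℤ) ∣ (t i * b j) * ((Int.gcd (t j * b k) c : ℕ) : ℤ) := by
    have h4 : (t i * b j) * ((Int.gcd (t j * b k) c : ℕ) : ℤ) =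
      (t i * ((Int.gcd (t j * b k) c : ℕ) : ℤ)) * b j := by ring
    rw [h4]
    exact h2.mul_right _
  have h5 := dvd_gcd_mul h3
  have h6 : c ∣ Int.gcd (t i * b j) c * Int.gcd (t j * b k) c := by exact_mod_cast h5
  refine Nat.le_of_dvd ?_ h6
  have hc0 : (c : ℤ) ≠ 0 := by
    have : (0 : ℤ) < c := by exact_mod_cast hc
    exact this.ne'
  exact Nat.mul_pos (Int.gcd_pos_of_ne_zero_right _ hc0) (Int.gcd_pos_of_ne_zero_right _ hc0)

theorem col_of {t b : Fin 3 → ℤ} (hnz : Nz t b) {i : Fin 3}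
    (h0 : t i * b (i + 1) = t (i + 1) * b i)
    (h1 : t (i + 1) * b (i + 2) = t (i + 2) * b (i + 1)) : Col t b := by
  have h2 : t i * b (i + 2) = t (i + 2) * b i := by
    have h3 : t (i + 1) * b (i + 1) ≠ 0 := mul_ne_zero (hnz _).1 (hnz _).2
    apply mul_left_cancel₀ h3
    calc t (i + 1) * b (i + 1) * (t i * b (i + 2))
        = (t i * b (i + 1)) * (t (i + 1) * b (i + 2)) := by ring
      _ = (t (i + 1) * b i) * (t (i + 2) * b (i + 1)) := by rw [h0, h1]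
      _ = t (i + 1) * b (i + 1) * (t (i + 2) * b i) := by ring
  intro x y
  rcases fin3_cases i x with hx | hx | hx <;> rcases fin3_cases i y with hy | hy | hy <;>
    rw [hx, hy]
  · exact h0
  · exact h2
  · exact h0.symm
  · exact h1
  · exact h2.symm
  · exact h1.symm

theorem exists_pair (hLAM6 : StLAM6) {c : ℕ} {t b : Fin 3 → ℤ} (hc : 1 ≤ c)
    (hL : 0 < Lam c t b) (hnz : Nz t b) (hcol : ¬ Col t b) (ht : sg t = 0) :
    ∃ i : Fin 3, t i * b (i + 1) ≠ t (i + 1) * b i ∧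
      c ≤ (Int.gcd (t i * b (i + 1)) c) ^ 2 := by
  by_contra hcon
  push Not at hcon
  obtain ⟨-, h1, -, h3, -⟩ := hLAM6 c t b hc hL
  have hA : ∀ i : Fin 3, t i * b (i + 1) = t (i + 1) * b i ∨
      t (i + 1) * b (i + 2) = t (i + 2) * b (i + 1) := by
    intro i
    by_contra hh
    push Not at hh
    have e1 := hcon i hh.1
    have e2 := hcon (i + 1) (by rw [add11]; exact hh.2)
    rw [add11] at e2
    have e3 := le_mul_gcd hc (h3 ht i (i + 1) (i + 2) (ne01 i) (ne12 i) (ne02 i))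
    have e4 : c ^ 2 ≤ (Int.gcd (t i * b (i + 1)) c * Int.gcd (t (i + 1) * b (i + 2)) c) ^ 2 :=
      Nat.pow_le_pow_left e3 2
    rw [mul_pow] at e4
    nlinarith
  have hB : ∀ i : Fin 3, ¬ (t i * b (i + 1) = t (i + 1) * b i ∧
      t (i + 1) * b (i + 2) = t (i + 2) * b (i + 1)) := fun i hh => hcol (col_of hnz hh.1 hh.2)
  have a0 := hA 0
  have a1 := hA 1
  have a2 := hA 2
  have b0 := hB 0
  have b1 := hB 1
  have b2 := hB 2
  have z1 : (0 : Fin 3) + 1 = 1 := rfl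
  have z2 : (0 : Fin 3) + 2 = 2 := rfl
  have z3 : (1 : Fin 3) + 1 = 2 := rfl
  have z4 : (1 : Fin 3) + 2 = 0 := rfl
  have z5 : (2 : Fin 3) + 1 = 0 := rfl
  have z6 : (2 : Fin 3) + 2 = 1 := rfl
  rw [z1, z2] at a0 b0
  rw [z3, z4] at a1 b1
  rw [z5, z6] at a2 b2
  tauto

/-- the set of `(t, b)` counted for fixed `i`, `g`, `E` -/
noncomputable def T3 (c A B : ℕ) (i : Fin 3) (g E : ℕ) : Finset ((Fin 3 → ℤ) × (Fin 3 → ℤ)) := by
  classical
  exact (Bx A B).filter fun p => Nz p.1 p.2 ∧ sg p.1 = 0 ∧ sg p.2 ≠ 0 ∧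
    (g : ℤ) ∣ sg p.2 ∧ (c : ℤ) ∣ p.1 i * p.2 (i + 1) - p.1 (i + 1) * p.2 i ∧
    p.1 i * p.2 (i + 1) ≠ p.1 (i + 1) * p.2 i ∧ (E : ℤ) ∣ p.1 i * p.2 (i + 1)

theorem mem_Bx {A B : ℕ} {p : (Fin 3 → ℤ) × (Fin 3 → ℤ)} (h : p ∈ Bx A B) :
    (∀ i, p.1 i ∈ I A) ∧ (∀ i, p.2 i ∈ I B) := by
  unfold Bx at h
  rw [Finset.mem_product] at h
  exact ⟨fun i => Fintype.mem_piFinset.1 h.1 i, fun i => Fintype.mem_piFinset.1 h.2 i⟩

theorem sg_mem {B : ℕ} {b : Fin 3 → ℤ} (h : ∀ i, b i ∈ I B) : sg b ∈ I (3 * B) := by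
  rw [mem_I, abs_le]
  have h0 := abs_le.1 (mem_I.1 (h 0))
  have h1 := abs_le.1 (mem_I.1 (h 1))
  have h2 := abs_le.1 (mem_I.1 (h 2))
  unfold sg
  push_cast
  constructor <;> linarith [h0.1, h0.2, h1.1, h1.2, h2.1, h2.2]

theorem T3_card (c A B : ℕ) (i : Fin 3) (g E : ℕ) (hEc : E ∣ c) :
    (T3 c A B i g E).card ≤ (PR c A B A B E).card *
      ((I (3 * B)).filter fun s : ℤ => s ≠ 0 ∧ (g : ℤ) ∣ s).card := by
  classical
  rw [← Finset.card_product]
  apply Finset.card_le_card_of_injOn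
    (fun p : (Fin 3 → ℤ) × (Fin 3 → ℤ) =>
      (((p.1 i, p.2 i), (p.1 (i + 1), p.2 (i + 1))), sg p.2))
  · intro p hp
    have hp' : p ∈ T3 c A B i g E := hp
    unfold T3 at hp'
    rw [Finset.mem_filter] at hp'
    obtain ⟨hbx, hnz, hs0, hs1, hg, hdet, hne, hE⟩ := hp'
    obtain ⟨hA, hB⟩ := mem_Bx hbx
    show (((p.1 i, p.2 i), (p.1 (i + 1), p.2 (i + 1))), sg p.2) ∈
      ((PR c A B A B E ×ˢ ((I (3 * B)).filter fun s : ℤ => s ≠ 0 ∧ (g : ℤ) ∣ s) :
        Finset _) : Set _)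
    rw [Finset.mem_coe, Finset.mem_product]
    refine ⟨?_, ?_⟩
    · unfold PR
      rw [Finset.mem_filter]
      refine ⟨?_, (hnz i).1, (hnz i).2, (hnz (i + 1)).1, (hnz (i + 1)).2, hdet, hne, hE, ?_⟩
      · simp only [Finset.mem_product]
        exact ⟨⟨hA _, hB _⟩, ⟨hA _, hB _⟩⟩
      · have h1 : (E : ℤ) ∣ p.1 i * p.2 (i + 1) - p.1 (i + 1) * p.2 i :=
          (Int.natCast_dvd_natCast.2 hEc).trans hdet
        have h2 := dvd_sub hE h1
        have h3 : p.1 i * p.2 (i + 1) - (p.1 i * p.2 (i + 1) - p.1 (i + 1) * p.2 i) =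
          p.1 (i + 1) * p.2 i := by ring
        rw [h3] at h2
        exact h2
    · rw [Finset.mem_filter]
      exact ⟨sg_mem hB, hs1, hg⟩
  · intro p hp q hq h
    have hp' : p ∈ T3 c A B i g E := hp
    have hq' : q ∈ T3 c A B i g E := hq
    unfold T3 at hp' hq'
    rw [Finset.mem_filter] at hp' hq'
    have hps := hp'.2.2.1
    have hqs := hq'.2.2.1
    simp only [Prod.mk.injEq] at h
    obtain ⟨⟨⟨h1, h2⟩, h3, h4⟩, h5⟩ := h
    have h6 : p.1 (i + 2) = q.1 (i + 2) := by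
      rw [sg_rot _ i] at hps hqs
      rw [h1, h3] at hps
      linarith
    have h7 : p.2 (i + 2) = q.2 (i + 2) := by
      rw [sg_rot _ i, sg_rot q.2 i, h2, h4] at h5
      linarith
    apply Prod.ext
    · funext x
      rcases fin3_cases i x with hx | hx | hx <;> rw [hx]
      · exact h1
      · exact h3
      · exact h6
    · funext x
      rcases fin3_cases i x with hx | hx | hx <;> rw [hx]
      · exact h2
      · exact h4
      · exact h7

theorem T3_bound (hPAIR : StPAIR) (c A B : ℕ) (D : ℝ) (hc : 1 ≤ c) (hB : 1 ≤ B)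
    (hD : ∀ j : ℕ, 1 ≤ j → j ≤ A * B → τ j ≤ D) (i : Fin 3) (g E : ℕ) (hg : 1 ≤ g)
    (hE : 1 ≤ E) (hEc : E ∣ c) (h1 : c ≤ E ^ 2) (h2 : c ≤ 3 * B * E) :
    (g : ℝ) * ((T3 c A B i g E).card : ℝ) ≤
      192 * D ^ 2 * (B * ((A : ℝ) * B) ^ 2 / (c * max (Real.sqrt c) (c / (3 * B)))) := by
  have hc0 : (0 : ℝ) < c := by exact_mod_cast hc
  have hB0 : (0 : ℝ) < B := by exact_mod_cast hB
  have hg0 : (0 : ℝ) < g := by exact_mod_cast hg
  have hE0 : (0 : ℝ) < E := by exact_mod_cast hE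
  have e1 : ((PR c A B A B E).card : ℝ) ≤ 32 * D ^ 2 * ((A * B : ℕ) : ℝ) ^ 2 / (E * c) :=
    hPAIR c A B A B E (A * B) D hc hE le_rfl le_rfl hD
  have e2 : ((((I (3 * B)).filter fun s : ℤ => s ≠ 0 ∧ (g : ℤ) ∣ s).card : ℕ) : ℝ) ≤
      2 * ((3 * B : ℕ) : ℝ) / g :=
    stMul (3 * B) g _ hg (Finset.filter_subset _ _) (fun x hx => (Finset.mem_filter.1 hx).2)
  have e3 : ((T3 c A B i g E).card : ℝ) ≤ ((PR c A B A B E).card : ℝ) *
      ((((I (3 * B)).filter fun s : ℤ => s ≠ 0 ∧ (g : ℤ) ∣ s).card : ℕ) : ℝ) := by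
    exact_mod_cast T3_card c A B i g E hEc
  push_cast at e1 e2
  have e4 : max (Real.sqrt c) ((c : ℝ) / (3 * B)) ≤ E := by
    apply max_le
    · rw [Real.sqrt_le_left hE0.le]
      exact_mod_cast h1
    · rw [div_le_iff₀ (by positivity)]
      have : (c : ℝ) ≤ 3 * B * E := by exact_mod_cast h2
      linarith
  have e5 : 0 < max (Real.sqrt c) ((c : ℝ) / (3 * B)) :=
    lt_max_of_lt_left (Real.sqrt_pos.2 hc0)
  calc (g : ℝ) * ((T3 c A B i g E).card : ℝ)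
      ≤ (g : ℝ) * ((32 * D ^ 2 * ((A : ℝ) * B) ^ 2 / (E * c)) * (2 * (3 * (B : ℝ)) / g)) := by
        apply mul_le_mul_of_nonneg_left _ hg0.le
        refine e3.trans ?_
        apply mul_le_mul e1 e2 (by positivity)
        positivity
    _ = 192 * D ^ 2 * (B * ((A : ℝ) * B) ^ 2 / (c * E)) := by
        field_simp
        ring
    _ ≤ 192 * D ^ 2 * (B * ((A : ℝ) * B) ^ 2 / (c * max (Real.sqrt c) (c / (3 * B)))) := by
        apply mul_le_mul_of_nonneg_left _ (by positivity)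
        apply div_le_div_of_nonneg_left (by positivity) (by positivity)
        exact mul_le_mul_of_nonneg_left e4 hc0.le

theorem gcd_eq {c : ℕ} {s x : ℤ} (hx : x = 0) : Int.gcd (Int.gcd x s) c = Int.gcd s c := by
  subst hx
  rw [Int.gcd_zero_left]
  unfold Int.gcd
  rw [Int.natAbs_natCast]

theorem hB (hPAIR : StPAIR) (hLAM6 : StLAM6) : StB := by
  classical
  intro c A B D hc hB1 hD
  have hc0 : (0 : ℝ) < c := by exact_mod_cast hc
  have hcz : (c : ℤ) ≠ 0 := by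
    have : (0 : ℤ) < c := by exact_mod_cast hc
    exact this.ne'
  set M : ℝ := 192 * D ^ 2 * (B * ((A : ℝ) * B) ^ 2 / (c * max (Real.sqrt c) (c / (3 * B))))
    with hM
  set Q : Finset (Fin 3 × ℕ × ℕ) := (Finset.univ : Finset (Fin 3)) ×ˢ (c.divisors ×ˢ
    (c.divisors.filter fun E => c ≤ E ^ 2 ∧ c ≤ 3 * B * E)) with hQ
  set S : Finset ((Fin 3 → ℤ) × (Fin 3 → ℤ)) := (Bx A B).filter
    (fun p => Nz p.1 p.2 ∧ ¬ Col p.1 p.2 ∧ sg p.1 = 0 ∧ sg p.2 ≠ 0) with hS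
  -- the pointwise bound
  have key : ∀ p ∈ S, (Lam c p.1 p.2 : ℝ) ≤
      ∑ q ∈ Q, (if p ∈ T3 c A B q.1 q.2.1 q.2.2 then (q.2.1 : ℝ) else 0) := by
    intro p hp
    rw [hS, Finset.mem_filter] at hp
    obtain ⟨hbx, hnz, hcol, hs0, hs1⟩ := hp
    obtain ⟨hA, hB⟩ := mem_Bx hbx
    rcases Nat.eq_zero_or_pos (Lam c p.1 p.2) with hL | hL
    · rw [hL]
      push_cast
      apply Finset.sum_nonneg
      intro q _
      split_ifs <;> positivity
    · obtain ⟨l1, l2, l3, l4, -⟩ := hLAM6 c p.1 p.2 hc hL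
      rw [gcd_eq hs0] at l1
      obtain ⟨i, hi1, hi2⟩ := exists_pair hLAM6 hc hL hnz hcol hs0
      set g := Int.gcd (sg p.2) c with hg
      set E := Int.gcd (p.1 i * p.2 (i + 1)) c with hE
      have hgc : g ∣ c := by
        have : (g : ℤ) ∣ (c : ℤ) := Int.gcd_dvd_right _ _
        exact_mod_cast this
      have hEc : E ∣ c := by
        have : (E : ℤ) ∣ (c : ℤ) := Int.gcd_dvd_right _ _
        exact_mod_cast this
      have hgs : (g : ℤ) ∣ sg p.2 := Int.gcd_dvd_left _ _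
      have hEt : (E : ℤ) ∣ p.1 i * p.2 (i + 1) := Int.gcd_dvd_left _ _
      have hE0 : 0 < E := Int.gcd_pos_of_ne_zero_right _ hcz
      have hg0 : 0 < g := Int.gcd_pos_of_ne_zero_right _ hcz
      have hg3 : g ≤ 3 * B := by
        have h1 := mem_I.1 (sg_mem hB)
        have h2 : (g : ℤ) ≤ |sg p.2| := Int.le_of_dvd (abs_pos.2 hs1) ((dvd_abs _ _).2 hgs)
        have h3 := h2.trans h1
        exact_mod_cast h3
      have hcE : c ≤ 3 * B * E := by
        have h1 : (c : ℤ) ∣ p.1 i * sg p.2 := by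
          have h := l3 i
          rw [hs0, zero_mul, sub_zero] at h
          exact h
        have h2 := dvd_mul_gcd h1
        have h3 : (c : ℤ) ∣ (p.1 i * p.2 (i + 1)) * ((Int.gcd (sg p.2) c : ℕ) : ℤ) := by
          have h4 : (p.1 i * p.2 (i + 1)) * ((Int.gcd (sg p.2) c : ℕ) : ℤ) =
            (p.1 i * ((Int.gcd (sg p.2) c : ℕ) : ℤ)) * p.2 (i + 1) := by ring
          rw [h4]
          exact h2.mul_right _
        have h5 := dvd_gcd_mul h3
        have h6 : c ∣ E * g := by exact_mod_cast h5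
        have h7 := Nat.le_of_dvd (Nat.mul_pos hE0 hg0) h6
        calc c ≤ E * g := h7
          _ ≤ E * (3 * B) := Nat.mul_le_mul_left _ hg3
          _ = 3 * B * E := by ring
      have hmem : ((i, g, E) : Fin 3 × ℕ × ℕ) ∈ Q := by
        rw [hQ]
        simp only [Finset.mem_product, Finset.mem_univ, true_and, Finset.mem_filter,
          Nat.mem_divisors]
        exact ⟨⟨hgc, by omega⟩, ⟨hEc, by omega⟩, hi2, hcE⟩
      have hT : p ∈ T3 c A B i g E := by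
        unfold T3
        rw [Finset.mem_filter]
        exact ⟨hbx, hnz, hs0, hs1, hgs, l2 i (i + 1), hi1, hEt⟩
      have hone : (if p ∈ T3 c A B (i, g, E).1 (i, g, E).2.1 (i, g, E).2.2 then
          (((i, g, E) : Fin 3 × ℕ × ℕ).2.1 : ℝ) else 0) ≤
          ∑ q ∈ Q, (if p ∈ T3 c A B q.1 q.2.1 q.2.2 then (q.2.1 : ℝ) else 0) := by
        apply Finset.single_le_sum
          (f := fun q : Fin 3 × ℕ × ℕ => if p ∈ T3 c A B q.1 q.2.1 q.2.2 then (q.2.1 : ℝ) else 0)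
          _ hmem
        intro q _
        show (0 : ℝ) ≤ if p ∈ T3 c A B q.1 q.2.1 q.2.2 then (q.2.1 : ℝ) else 0
        split_ifs <;> positivity
      refine le_trans ?_ hone
      show (Lam c p.1 p.2 : ℝ) ≤ if p ∈ T3 c A B i g E then (g : ℝ) else 0
      rw [if_pos hT]
      exact_mod_cast l1
  have hsum : (WT c A B (fun t b => Nz t b ∧ ¬ Col t b ∧ sg t = 0 ∧ sg b ≠ 0) : ℝ) =
      ∑ p ∈ S, (Lam c p.1 p.2 : ℝ) := by
    unfold WT
    rw [Nat.cast_sum]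
    apply Finset.sum_congr _ (fun _ _ => rfl)
    ext p
    simp only [hS, Finset.mem_filter]
  rw [hsum]
  have hterm : ∀ q ∈ Q, ∑ p ∈ S, (if p ∈ T3 c A B q.1 q.2.1 q.2.2 then (q.2.1 : ℝ) else 0) ≤ M := by
    intro q hq
    rw [hQ] at hq
    simp only [Finset.mem_product, Finset.mem_univ, true_and, Finset.mem_filter,
      Nat.mem_divisors] at hq
    obtain ⟨⟨hg, -⟩, ⟨hE, -⟩, h1, h2⟩ := hq
    rw [← Finset.sum_filter, Finset.sum_const, nsmul_eq_mul, mul_comm]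
    have hsub : (S.filter fun p => p ∈ T3 c A B q.1 q.2.1 q.2.2).card ≤
        (T3 c A B q.1 q.2.1 q.2.2).card :=
      Finset.card_le_card (fun p hp => (Finset.mem_filter.1 hp).2)
    have hg0 : 0 < q.2.1 := Nat.pos_of_dvd_of_pos hg (by omega)
    have hE0 : 0 < q.2.2 := Nat.pos_of_dvd_of_pos hE (by omega)
    refine le_trans ?_ (T3_bound hPAIR c A B D hc hB1 hD q.1 q.2.1 q.2.2 hg0 hE0 hE h1 h2)
    apply mul_le_mul_of_nonneg_left _ (by positivity)
    exact_mod_cast hsub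
  have hM0 : 0 ≤ M := by rw [hM]; positivity
  have hQc : (Q.card : ℝ) ≤ 3 * τ c ^ 2 := by
    rw [hQ, Finset.card_product, Finset.card_product, Finset.card_univ, Fintype.card_fin]
    push_cast
    have h1 : (((c.divisors.filter fun E => c ≤ E ^ 2 ∧ c ≤ 3 * B * E).card : ℕ) : ℝ) ≤
        (c.divisors.card : ℝ) := by
      exact_mod_cast Finset.card_le_card (Finset.filter_subset _ _)
    unfold τ
    have h2 : (0 : ℝ) ≤ (c.divisors.card : ℝ) := by positivity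
    nlinarith
  calc ∑ p ∈ S, (Lam c p.1 p.2 : ℝ)
      ≤ ∑ p ∈ S, ∑ q ∈ Q, (if p ∈ T3 c A B q.1 q.2.1 q.2.2 then (q.2.1 : ℝ) else 0) :=
        Finset.sum_le_sum key
    _ = ∑ q ∈ Q, ∑ p ∈ S, (if p ∈ T3 c A B q.1 q.2.1 q.2.2 then (q.2.1 : ℝ) else 0) :=
        Finset.sum_comm
    _ ≤ ∑ _q ∈ Q, M := Finset.sum_le_sum hterm
    _ = (Q.card : ℝ) * M := by rw [Finset.sum_const, nsmul_eq_mul]
    _ ≤ (3 * τ c ^ 2) * M := mul_le_mul_of_nonneg_right hQc hM0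
    _ = 576 * D ^ 2 * τ c ^ 2 *
        (B * ((A : ℝ) * B) ^ 2 / (c * max (Real.sqrt c) (c / (3 * B)))) := by
        rw [hM]; ring

end Pool.Agent.Helper82.AL
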