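import Pool.Agent.Helper24.AL.St

/-!
# MP_e188f1_nt, project AL, module T
-/

set_option autoImplicit false

namespace Pool.Agent.Helper82.AL

open Finset Matrix
open Pool.Agent.Helper24.AL
open Pool.Agent.Helper56.SW (τ I)

theorem Eqs_swap {c : ℕ} {l : ℤ} {t b : Fin 3 → ℤ} (h : Eqs c l t b) : Eqs c l b t := by
  obtain ⟨h1, h2, h3⟩ := h
  refine ⟨?_, ?_, ?_⟩
  · intro i j
    have h4 := h1 j i
    have h5 : b i * t j - b j * t i = t j * b i - t i * b j := by ring
    rw [h5]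
    exact h4
  · intro i j k hij hjk hik
    have h4 := h3 i j k hij hjk hik
    have h5 : sg b + l * (b i * b j * t k) = sg b + l * (t k * b i * b j) := by ring
    rw [h5]
    exact h4
  · intro i j k hij hjk hik
    have h4 := h2 i j k hij hjk hik
    have h5 : sg t + l * (b k * t i * t j) = sg t + l * (t i * t j * b k) := by ring
    rw [h5]
    exact h4

theorem Lam_swap (c : ℕ) (t b : Fin 3 → ℤ) : Lam c t b = Lam c b t := by
  classical
  unfold Lam
  congr 1
  ext l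
  simp only [Finset.mem_filter]
  exact ⟨fun h => ⟨h.1, Eqs_swap h.2⟩, fun h => ⟨h.1, Eqs_swap h.2⟩⟩

theorem Nz_swap {t b : Fin 3 → ℤ} (h : Nz t b) : Nz b t := fun i => ⟨(h i).2, (h i).1⟩

theorem Col_swap {t b : Fin 3 → ℤ} (h : Col t b) : Col b t := fun i j => by
  have := h j i
  linarith

theorem Bx_swap {A B : ℕ} {p : (Fin 3 → ℤ) × (Fin 3 → ℤ)} (h : p ∈ Bx A B) :
    p.swap ∈ Bx B A := by
  unfold Bx at *
  rw [Finset.mem_product] at *
  exact ⟨h.2, h.1⟩

theorem WT_swap (c A B : ℕ) :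
    WT c A B (fun t b => Nz t b ∧ ¬ Col t b ∧ sg t ≠ 0 ∧ sg b = 0) =
      WT c B A (fun t b => Nz t b ∧ ¬ Col t b ∧ sg t = 0 ∧ sg b ≠ 0) := by
  classical
  unfold WT
  apply Finset.sum_nbij' (fun p => p.swap) (fun p => p.swap)
  · intro p hp
    simp only [Finset.mem_filter] at hp ⊢
    obtain ⟨h0, h1, h2, h3, h4⟩ := hp
    exact ⟨Bx_swap h0, Nz_swap h1, fun h => h2 (Col_swap h), h4, h3⟩
  · intro p hp
    simp only [Finset.mem_filter] at hp ⊢
    obtain ⟨h0, h1, h2, h3, h4⟩ := hp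
    exact ⟨Bx_swap h0, Nz_swap h1, fun h => h2 (Col_swap h), h4, h3⟩
  · intro p _
    rfl
  · intro p _
    rfl
  · intro p _
    exact Lam_swap c p.1 p.2

theorem hT (hB : StB) : StT := by
  intro c A B D hc hA hD
  have h := hB c B A D hc hA (fun j h1 h2 => hD j h1 (by rwa [mul_comm] at h2))
  rw [WT_swap]
  rw [mul_comm (A : ℝ) (B : ℝ)]
  exact h

end Pool.Agent.Helper82.AL
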